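import Pool.Agent.Helper15_SIU.Stmts

set_option autoImplicit false

open MeasureTheory Filter Topology

namespace Pool.Agent.SIU.H98

abbrev E4 : Type := Fin 4 → ℂ

theorem finrank_E4 : Module.finrank ℝ E4 = 8 := by
  simp [Module.finrank_pi_fintype, Complex.finrank_real_complex]

theorem top_det (Ω : Alt 4 8) (L : E4 →ₗ[ℝ] E4) (v : Fin 8 → E4) :
    Ω (fun i => L (v i)) = LinearMap.det L * Ω v := by
  have e := Module.finBasisOfFinrankEq ℝ E4 finrank_E4
  have h := AlternatingMap.eq_smul_basis_det e Ω.toAlternatingMap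
  have h1 : ∀ w : Fin 8 → E4, Ω w = Ω e * e.det w := by
    intro w
    have := congrArg (fun f => f w) h
    simpa using this
  have h2 := e.det_comp L v
  rw [h1, h1 v]
  have h3 : (fun i => L (v i)) = L ∘ v := rfl
  rw [h3, h2]; ring

theorem det_pos_of_complex (L : E4 →ₗ[ℂ] E4) (hL : Function.Injective L) :
    0 < LinearMap.det (L.restrictScalars ℝ) := by
  rw [LinearMap.det_restrictScalars, Algebra.norm_complex_apply]
  rw [Complex.normSq_pos]
  intro h
  have := LinearMap.bot_lt_ker_of_det_eq_zero h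
  rw [LinearMap.ker_eq_bot.mpr hL] at this
  exact lt_irrefl _ this

theorem w1_apply {N k : ℕ} (c : (Fin N → ℂ) →L[ℝ] ℝ) (a : Alt N k) (v : Fin (k + 1) → Fin N → ℂ) :
    w1 c a v = ∑ i : Fin (k + 1), (-1) ^ (i : ℕ) * (c (v i) * a (Fin.removeNth i v)) := by
  rw [w1, ContinuousAlternatingMap.alternatizeUncurryFin_apply]
  refine Finset.sum_congr rfl fun i _ => ?_
  simp [ContinuousLinearMap.smulRight_apply]

/-- real part of the coordinate -/
noncomputable def reX (a : Fin 4) : E4 →L[ℝ] ℝ :=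
  Complex.reCLM.comp ((ContinuousLinearMap.proj (R := ℂ) (φ := fun _ : Fin 4 => ℂ) a).restrictScalars ℝ)

/-- imaginary part of the coordinate -/
noncomputable def imX (a : Fin 4) : E4 →L[ℝ] ℝ :=
  Complex.imCLM.comp ((ContinuousLinearMap.proj (R := ℂ) (φ := fun _ : Fin 4 => ℂ) a).restrictScalars ℝ)

theorem reX_apply (a : Fin 4) (v : E4) : reX a v = (v a).re := rfl
theorem imX_apply (a : Fin 4) (v : E4) : imX a v = (v a).im := rfl

theorem stdb_val (m : ℕ) (i : Fin m) (b : Fin 4) : stdb 4 m i b =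
    (if (i : ℕ) % 2 = 0 then 1 else Complex.I) * (if (b : ℕ) = (i : ℕ) / 2 then 1 else 0) := by
  unfold stdb cvec
  split_ifs <;> simp_all

theorem base (M : Alt 4 6) (hM : WPos 3 M) (a : Fin 4) :
    0 ≤ w1 (reX a) (w1 (imX a) M) (stdb 4 8) := by
  have ha : 2 * (a : ℕ) < 7 := by omega
  let p : Fin 8 := ⟨2 * a, by omega⟩
  let q : Fin 7 := ⟨2 * a, by omega⟩
  rw [w1_apply, Finset.sum_eq_single p]
  rotate_left
  · intro i _ hi
    have hi' : (i : ℕ) ≠ 2 * a := fun h => hi (Fin.ext h)
    rw [reX_apply, stdb_val]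
    split_ifs with h1 h2 h2
    · omega
    · simp
    · simp
    · simp
  · intro h; exact absurd (Finset.mem_univ _) h
  rw [w1_apply, Finset.sum_eq_single q]
  rotate_left
  · intro j _ hj
    have hj' : (j : ℕ) ≠ 2 * a := fun h => hj (Fin.ext h)
    rw [imX_apply, Fin.removeNth, stdb_val]
    have hs : ((p.succAbove j : Fin 8) : ℕ) = if (j : ℕ) < 2 * a then (j : ℕ) else j + 1 := by
      simp only [Fin.succAbove, Fin.lt_def, p, Fin.val_castSucc]
      split_ifs <;> simp
    rw [hs]
    split_ifs with h1 h2 h3 h3 h2 h3 h3 <;> first | omega | simp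
  · intro h; exact absurd (Finset.mem_univ _) h
  have e1 : reX a (stdb 4 8 p) = 1 := by
    rw [reX_apply, stdb_val]
    have : (p : ℕ) = 2 * a := rfl
    rw [this]
    simp
  have e2 : imX a ((Fin.removeNth p (stdb 4 8)) q) = 1 := by
    rw [imX_apply, Fin.removeNth, stdb_val]
    have hs : ((p.succAbove q : Fin 8) : ℕ) = 2 * a + 1 := by
      simp only [Fin.succAbove, Fin.lt_def, p, q]
      simp
    rw [hs]
    have h1 : (2 * (a : ℕ) + 1) % 2 = 1 := by omega
    have h2 : (2 * (a : ℕ) + 1) / 2 = a := by omega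
    rw [h1, h2]
    simp
  have e3 : Fin.removeNth q (Fin.removeNth p (stdb 4 8)) =
      cvec (fun k => fun b : Fin 4 => if (b : ℕ) = (if k < a then k else k + 1) then 1 else 0)
        (2 * 3) := by
    funext k b
    show stdb 4 8 (p.succAbove (q.succAbove k)) b = _
    rw [stdb_val]
    have hs : ((p.succAbove (q.succAbove k) : Fin 8) : ℕ) =
        if (k : ℕ) < 2 * a then (k : ℕ) else k + 2 := by
      simp only [Fin.succAbove, Fin.lt_def, p, q, Fin.val_castSucc]
      split_ifs <;> simp_all <;> omega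
    rw [hs]
    unfold cvec
    by_cases hk : (k : ℕ) < 2 * a
    · have hk2 : (k : ℕ) / 2 < a := by omega
      simp only [hk, if_true, hk2]
      split_ifs <;> simp_all
    · have hk2 : ¬ (k : ℕ) / 2 < a := by omega
      have h3 : ((k : ℕ) + 2) / 2 = k / 2 + 1 := by omega
      have h4 : ((k : ℕ) + 2) % 2 = k % 2 := by omega
      simp only [hk, if_false, hk2, h3, h4]
      split_ifs <;> simp_all
  rw [e1, e2, e3]
  have hp : ((-1 : ℝ)) ^ (p : ℕ) = 1 := by
    show (-1 : ℝ) ^ (2 * (a : ℕ)) = 1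
    rw [pow_mul]; simp
  have hq : ((-1 : ℝ)) ^ (q : ℕ) = 1 := by
    show (-1 : ℝ) ^ (2 * (a : ℕ)) = 1
    rw [pow_mul]; simp
  simp only [hp, hq, one_mul]
  exact hM _

theorem psv1 (hW : WonStmt) (M : Alt 4 6) (hM : WPos 3 M) (b : E4 →L[ℝ] ℝ) :
    0 ≤ w1 b (w1 (cj b) M) (stdb 4 8) := by
  have hnat := fun (k : ℕ) => (hW 4 k).2.2.2.1
  by_cases hb : b = 0
  · subst hb
    have h := ((hW 4 7).2.2.1 0 0 (w1 (cj 0) M)).1
    rw [zero_smul, zero_smul] at h
    rw [h]; simp
  -- the complex linear functional with real part `b`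
  let β : E4 → ℂ := fun v => ⟨b v, -b (Complex.I • v)⟩
  have hadd : ∀ v w, β (v + w) = β v + β w := by
    intro v w
    apply Complex.ext
    · simp [β]
    · simp [β, smul_add]; ring
  have hsm : ∀ (u : ℂ) (v : E4), β (u • v) = u * β v := by
    intro u v
    have h1 : u • v = u.re • v + u.im • (Complex.I • v) := by
      funext i
      simp only [Pi.smul_apply, Pi.add_apply, smul_eq_mul, Complex.real_smul]
      conv_lhs => rw [← Complex.re_add_im u]
      ring
    have h2 : Complex.I • (u • v) = u.re • (Complex.I • v) - u.im • v := by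
      funext i
      simp only [Pi.smul_apply, Pi.sub_apply, smul_eq_mul, Complex.real_smul]
      conv_lhs => rw [← Complex.re_add_im u]
      ring_nf
      rw [Complex.I_sq]; ring
    apply Complex.ext
    · show b (u • v) = _
      rw [h1, map_add, map_smul, map_smul]
      simp [β, Complex.mul_re]
    · show - b (Complex.I • (u • v)) = _
      rw [h2, map_sub, b.map_smul u.re, b.map_smul u.im]
      simp only [β, Complex.mul_im, smul_eq_mul]; ring
  let βl : E4 →ₗ[ℂ] ℂ := { toFun := β, map_add' := hadd, map_smul' := hsm }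
  have hex : ∃ a : Fin 4, βl (Pi.single a 1) ≠ 0 := by
    by_contra hcon
    push Not at hcon
    apply hb
    have h0 : βl = 0 := by
      apply LinearMap.pi_ext'
      intro i
      ext
      simpa using hcon i
    ext v
    have : (βl v).re = 0 := by rw [h0]; simp
    exact this
  obtain ⟨a, ha⟩ := hex
  let βa : ℂ := βl (Pi.single a 1)
  -- `L v = v + ((v a - β v) / β_a) e_a`
  let L : E4 →ₗ[ℂ] E4 := LinearMap.id +
    ((LinearMap.proj a - βl).smulRight (βa⁻¹ • (Pi.single a 1 : E4)))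
  have hLv : ∀ v, L v = v + (v a - βl v) • (βa⁻¹ • (Pi.single a 1 : E4)) := fun v => rfl
  have hβL : ∀ v, βl (L v) = v a := by
    intro v
    rw [hLv, map_add, map_smul, map_smul, smul_eq_mul, smul_eq_mul]
    show βl v + (v a - βl v) * (βa⁻¹ * βa) = v a
    rw [inv_mul_cancel₀ ha]; ring
  have hinj : Function.Injective L := by
    rw [injective_iff_map_eq_zero]
    intro v hv
    have h1 : v a = 0 := by rw [← hβL v, hv, map_zero]
    have h2 : v = (βl v) • (βa⁻¹ • (Pi.single a 1 : E4)) := by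
      have := hLv v
      rw [hv, h1, zero_sub, neg_smul] at this
      exact (add_neg_eq_zero.mp this.symm)
    have h3 : (βl v) * βa⁻¹ = 0 := by
      have := congrFun h2 a
      rw [h1] at this
      simpa using this.symm
    rw [h2, smul_smul, h3, zero_smul]
  have hdet := det_pos_of_complex L hinj
  let LR : E4 →L[ℝ] E4 := (LinearMap.toContinuousLinearMap L).restrictScalars ℝ
  have hLR : ∀ v, LR v = L v := fun v => rfl
  set Ω : Alt 4 8 := w1 b (w1 (cj b) M) with hΩ
  have h1 : Ω.compContinuousLinearMap LR =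
      w1 (reX a) (w1 (imX a) (M.compContinuousLinearMap LR)) := by
    have q1 : b.comp LR = reX a := by
      ext v
      show b (LR v) = (v a).re
      rw [hLR, ← hβL v]
      rfl
    have q2 : (cj b).comp LR = imX a := by
      ext v
      show (cj b) (LR v) = (v a).im
      rw [hLR, ← hβL v]
      rfl
    rw [hΩ, hnat 7 4 LR, hnat 6 4 LR, q1, q2]
  have hM' : WPos 3 (M.compContinuousLinearMap LR) := by
    intro v
    have h2 := hM (fun k => L (v k))
    have h3 : (fun i => LR (cvec v (2 * 3) i)) = cvec (fun k => L (v k)) (2 * 3) := by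
      funext i
      unfold cvec
      rw [hLR]
      split_ifs
      · rfl
      · rw [map_smul]
    show 0 ≤ M (fun i => LR (cvec v (2 * 3) i))
    rw [h3]; exact h2
  have h4 := base _ hM' a
  rw [← h1] at h4
  have h5 : Ω.compContinuousLinearMap LR (stdb 4 8) =
      LinearMap.det (L.restrictScalars ℝ) * Ω (stdb 4 8) := top_det Ω (L.restrictScalars ℝ) _
  rw [h5] at h4
  exact nonneg_of_mul_nonneg_right h4 hdet

theorem cjcj {N : ℕ} (c : (Fin N → ℂ) →L[ℝ] ℝ) : cj (cj c) = -c := by
  ext v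
  show -(-(c (Complex.I • (Complex.I • v)))) = -(c v)
  rw [smul_smul, Complex.I_mul_I, neg_smul, one_smul, map_neg, neg_neg]

theorem psv2 (hW : WonStmt) (M : Alt 4 6)
    (hu : ∀ u : ℂ, ‖u‖ = 1 → ∀ v, M (fun j => u • v j) = M v) (b c : E4 →L[ℝ] ℝ) :
    w1 b (w1 (cj c) M) (stdb 4 8) = w1 c (w1 (cj b) M) (stdb 4 8) := by
  have hnat := fun (k : ℕ) => (hW 4 k).2.2.2.1
  have hanti := (hW 4 6).2.2.2.2.1
  have hsm7 := (hW 4 7).2.2.1
  have hsm6 := (hW 4 6).2.2.1
  set Ω : Alt 4 8 := w1 b (w1 (cj c) M) with hΩ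
  have hMJ : M.compContinuousLinearMap (mulC 4 Complex.I) = M := by
    ext v
    exact hu Complex.I (by simp) v
  have hbJ : b.comp (mulC 4 Complex.I) = (-1 : ℝ) • cj b := by
    ext v; simp [cj]
  have hcJ : (cj c).comp (mulC 4 Complex.I) = c := by
    ext v
    show -(c (Complex.I • (Complex.I • v))) = c v
    rw [smul_smul, Complex.I_mul_I, neg_smul, one_smul, map_neg, neg_neg]
  have h1 : Ω.compContinuousLinearMap (mulC 4 Complex.I) = w1 c (w1 (cj b) M) := by
    rw [hΩ, hnat 7 4 _, hnat 6 4 _, hMJ, hbJ, hcJ, (hsm7 _ _ _).1, hanti (cj b) c M]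
    simp
  have h2 : Ω.compContinuousLinearMap (mulC 4 Complex.I) (stdb 4 8) =
      LinearMap.det ((Complex.I • (LinearMap.id : E4 →ₗ[ℂ] E4)).restrictScalars ℝ) *
        Ω (stdb 4 8) := top_det Ω _ _
  have h3 : LinearMap.det ((Complex.I • (LinearMap.id : E4 →ₗ[ℂ] E4)).restrictScalars ℝ) = 1 := by
    rw [LinearMap.det_restrictScalars, Algebra.norm_complex_apply, LinearMap.det_smul]
    simp
  rw [h3, one_mul] at h2
  rw [← h2, h1]

theorem psv (hW : WonStmt) : PsvStmt := by
  intro M hM hu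
  refine ⟨fun b => psv1 hW M hM b, fun b c => psv2 hW M hu b c, fun b c => ?_⟩
  have hanti := (hW 4 6).2.2.2.2.1
  have hsm7 := (hW 4 7).2.2.1
  have hsm6 := (hW 4 6).2.2.1
  have h1 : cj (cj c) = (-1 : ℝ) • c := by
    rw [cjcj]; ext v; simp
  rw [h1, (hsm6 _ _ _).1, (hsm7 _ _ _).2, hanti (cj b) c M, smul_neg, neg_smul, one_smul, neg_neg,
    psv2 hW M hu c b]

end Pool.Agent.SIU.H98
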