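import Pool.Agent.Helper15_SIU.Stmts

set_option autoImplicit false

open MvPolynomial

namespace Pool.Agent.SIU.H98

/-- admissible functionals -/
def Adm (Φ : MvPolynomial (Fin 3) ℝ →ₗ[ℝ] ℝ) : Prop :=
  (∀ (i j : Fin 3) (h : MvPolynomial (Fin 3) ℝ),
      Φ (MvPolynomial.X i * MvPolynomial.pderiv j h - MvPolynomial.X j * MvPolynomial.pderiv i h)
        = 0) ∧
    (∀ h : MvPolynomial (Fin 3) ℝ, Φ ((∑ i, MvPolynomial.X i ^ 2) * h) = Φ h)

/-- determined by the value at `1` -/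
def Det (h : MvPolynomial (Fin 3) ℝ) : Prop :=
  ∃ c : ℝ, ∀ Φ : MvPolynomial (Fin 3) ℝ →ₗ[ℝ] ℝ, Adm Φ → Φ h = c * Φ 1

theorem det_add {p q : MvPolynomial (Fin 3) ℝ} (hp : Det p) (hq : Det q) : Det (p + q) := by
  obtain ⟨c, hc⟩ := hp
  obtain ⟨d, hd⟩ := hq
  refine ⟨c + d, fun Φ h => ?_⟩
  rw [map_add, hc Φ h, hd Φ h]; ring

theorem det_C (r : ℝ) {p : MvPolynomial (Fin 3) ℝ} (hp : Det p) : Det (C r * p) := by
  obtain ⟨c, hc⟩ := hp
  refine ⟨r * c, fun Φ h => ?_⟩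
  rw [← MvPolynomial.smul_eq_C_mul, map_smul, hc Φ h, smul_eq_mul]; ring

theorem pd (i j k : Fin 3) (hij : i ≠ j) (hik : i ≠ k) (a b c : ℕ) :
    pderiv i (X i ^ (a + 1) * X j ^ b * X k ^ c : MvPolynomial (Fin 3) ℝ) =
      C ((a : ℝ) + 1) * (X i ^ a * X j ^ b * X k ^ c) := by
  simp only [Derivation.leibniz, Derivation.leibniz_pow, smul_eq_mul, pderiv_X_self,
    pderiv_X_of_ne hij.symm, pderiv_X_of_ne hik.symm, smul_zero, mul_zero, zero_add, nsmul_eq_mul]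
  simp only [map_add, map_natCast, map_one, Nat.add_sub_cancel]
  push_cast
  ring

theorem pd0 (i j k : Fin 3) (hij : i ≠ j) (hik : i ≠ k) (b c : ℕ) :
    pderiv i (X j ^ b * X k ^ c : MvPolynomial (Fin 3) ℝ) = 0 := by
  simp only [Derivation.leibniz, Derivation.leibniz_pow, smul_eq_mul,
    pderiv_X_of_ne hij.symm, pderiv_X_of_ne hik.symm, smul_zero, mul_zero, zero_add]

theorem rel (i j k : Fin 3) (hij : i ≠ j) (hik : i ≠ k) (hjk : j ≠ k) (a b c : ℕ)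
    {Φ : MvPolynomial (Fin 3) ℝ →ₗ[ℝ] ℝ} (h : Adm Φ) :
    Φ (X i ^ (a + 2) * X j ^ b * X k ^ c) =
      ((a : ℝ) + 1) / (b + 1) * Φ (X i ^ a * X j ^ (b + 2) * X k ^ c) := by
  have h1 := h.1 i j (X i ^ (a + 1) * X j ^ (b + 1) * X k ^ c)
  have e1 : pderiv j (X i ^ (a + 1) * X j ^ (b + 1) * X k ^ c : MvPolynomial (Fin 3) ℝ) =
      C ((b : ℝ) + 1) * (X j ^ b * X i ^ (a + 1) * X k ^ c) := by
    rw [← pd j i k hij.symm hjk b (a + 1) c]
    congr 1; ring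
  have e2 : (X i * (C ((b : ℝ) + 1) * (X j ^ b * X i ^ (a + 1) * X k ^ c)) -
      X j * (C ((a : ℝ) + 1) * (X i ^ a * X j ^ (b + 1) * X k ^ c)) : MvPolynomial (Fin 3) ℝ) =
      ((b : ℝ) + 1) • (X i ^ (a + 2) * X j ^ b * X k ^ c) -
      ((a : ℝ) + 1) • (X i ^ a * X j ^ (b + 2) * X k ^ c) := by
    rw [MvPolynomial.smul_eq_C_mul, MvPolynomial.smul_eq_C_mul]; ring
  rw [e1, pd i j k hij hik a (b + 1) c, e2, map_sub, map_smul, map_smul, smul_eq_mul,
    smul_eq_mul] at h1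
  have hb : ((b : ℝ) + 1) ≠ 0 := by positivity
  field_simp
  linarith

theorem rel1 (i j k : Fin 3) (hij : i ≠ j) (hik : i ≠ k) (hjk : j ≠ k) (b c : ℕ)
    {Φ : MvPolynomial (Fin 3) ℝ →ₗ[ℝ] ℝ} (h : Adm Φ) :
    Φ (X i ^ 1 * X j ^ b * X k ^ c) = 0 := by
  have h1 := h.1 i j (X j ^ (b + 1) * X k ^ c)
  have e1 : pderiv j (X j ^ (b + 1) * X k ^ c : MvPolynomial (Fin 3) ℝ) =
      C ((b : ℝ) + 1) * (X j ^ b * X k ^ c) := by
    have := pd j i k hij.symm hjk b 0 c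
    simpa using this
  have e2 : (X i * (C ((b : ℝ) + 1) * (X j ^ b * X k ^ c)) - X j * 0 : MvPolynomial (Fin 3) ℝ) =
      ((b : ℝ) + 1) • (X i ^ 1 * X j ^ b * X k ^ c) := by
    rw [MvPolynomial.smul_eq_C_mul]; ring
  rw [e1, pd0 i j k hij hik (b + 1) c, e2, map_smul, smul_eq_mul] at h1
  have hb : ((b : ℝ) + 1) ≠ 0 := by positivity
  exact (mul_eq_zero.mp h1).resolve_left hb

theorem det_z (c : ℕ) : Det (X 0 ^ 0 * X 1 ^ 0 * X 2 ^ c) := by
  induction c using Nat.twoStepInduction with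
  | zero => exact ⟨1, fun Φ _ => by simp⟩
  | one =>
    refine ⟨0, fun Φ h => ?_⟩
    have := rel1 2 1 0 (by decide) (by decide) (by decide) 0 0 h
    simp only [pow_zero, mul_one, one_mul, zero_mul] at this ⊢
    exact this
  | more c ih _ =>
    obtain ⟨d, hd⟩ := ih
    refine ⟨((c : ℝ) + 1) / (c + 3) * d, fun Φ h => ?_⟩
    have h0 := h.2 (X 2 ^ c)
    have h1 := rel 0 2 1 (by decide) (by decide) (by decide) 0 c 0 h
    have h2 := rel 1 2 0 (by decide) (by decide) (by decide) 0 c 0 h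
    have h3 := hd Φ h
    rw [Fin.sum_univ_three] at h0
    have e : ((X 0 ^ 2 + X 1 ^ 2 + X 2 ^ 2) * X 2 ^ c : MvPolynomial (Fin 3) ℝ) =
        X 0 ^ 2 * X 2 ^ c + X 1 ^ 2 * X 2 ^ c + X 2 ^ (c + 2) := by ring
    rw [e, map_add, map_add] at h0
    simp only [pow_zero, mul_one, one_mul, zero_add, Nat.cast_zero] at h1 h2 h3 ⊢
    rw [h1, h2] at h0
    have hc : ((c : ℝ) + 1) ≠ 0 := by positivity
    have hc3 : ((c : ℝ) + 3) ≠ 0 := by positivity
    rw [h3] at h0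
    field_simp at h0 ⊢
    linarith

theorem det_yz (b : ℕ) : ∀ c : ℕ, Det (X 0 ^ 0 * X 1 ^ b * X 2 ^ c) := by
  induction b using Nat.twoStepInduction with
  | zero => exact det_z
  | one =>
    intro c
    refine ⟨0, fun Φ h => ?_⟩
    have := rel1 1 0 2 (by decide) (by decide) (by decide) 0 c h
    rw [zero_mul, ← this]
    congr 1; ring
  | more b ih _ =>
    intro c
    obtain ⟨d, hd⟩ := ih (c + 2)
    refine ⟨((b : ℝ) + 1) / (c + 1) * d, fun Φ h => ?_⟩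
    have h1 := rel 1 2 0 (by decide) (by decide) (by decide) b c 0 h
    have h3 := hd Φ h
    simp only [pow_zero, mul_one, one_mul] at h1 h3 ⊢
    rw [h1, h3]; ring

theorem det_xyz (a : ℕ) : ∀ b c : ℕ, Det (X 0 ^ a * X 1 ^ b * X 2 ^ c) := by
  induction a using Nat.twoStepInduction with
  | zero => exact fun b c => det_yz b c
  | one =>
    intro b c
    refine ⟨0, fun Φ h => ?_⟩
    rw [zero_mul]
    exact rel1 0 1 2 (by decide) (by decide) (by decide) b c h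
  | more a ih _ =>
    intro b c
    obtain ⟨d, hd⟩ := ih (b + 2) c
    refine ⟨((a : ℝ) + 1) / (b + 1) * d, fun Φ h => ?_⟩
    rw [rel 0 1 2 (by decide) (by decide) (by decide) a b c h, hd Φ h]; ring

theorem det_all (h : MvPolynomial (Fin 3) ℝ) : Det h := by
  induction h using MvPolynomial.induction_on' with
  | monomial u r =>
    rw [MvPolynomial.monomial_eq, Finsupp.prod_fintype _ _ (by simp), Fin.prod_univ_three]
    exact det_C r (det_xyz _ _ _)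
  | add p q hp hq => exact det_add hp hq

theorem alg : AlgStmt := by
  choose I hI using det_all
  exact ⟨I, fun Φ h1 h2 h => hI h Φ ⟨h1, h2⟩⟩

end Pool.Agent.SIU.H98
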